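import Pool.Agent.Run7.h745.PC_Defs

/-!
# Project PC of helper745: piece PC_C1 (logarithms on convex sets)
-/

set_option autoImplicit false

namespace Run7.h305.PCC1

open scoped unitInterval

theorem exists_log {E : Type*} [NormedAddCommGroup E] [NormedSpace ℝ E] {R : Set E}
    (hR : Convex ℝ R) {f : E → ℂ} (hf : ContinuousOn f R) (h1 : ∀ x ∈ R, ‖f x‖ = 1) :
    ∃ g : E → ℝ, ContinuousOn g R ∧ ∀ x ∈ R, f x = Complex.exp (g x * Complex.I) := by
  classical
  rcases R.eq_empty_or_nonempty with rfl | ⟨x₀, hx₀⟩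
  · exact ⟨fun _ => 0, continuousOn_empty _, fun x hx => absurd hx (by simp)⟩
  have hmem : ∀ (t : I) (x : R), x₀ + (t : ℝ) • ((x : E) - x₀) ∈ R := fun t x => by
    exact hR.add_smul_sub_mem hx₀ x.2 t.2
  let f' : C(R, Circle) := ⟨fun x => ⟨f x, mem_sphere_zero_iff_norm.2 (h1 x x.2)⟩,
    Continuous.subtype_mk (continuousOn_iff_continuous_domRestrict.1 hf) _⟩
  let hom : C(I × R, R) := ⟨fun z => ⟨x₀ + (z.1 : ℝ) • ((z.2 : E) - x₀), hmem z.1 z.2⟩,
    Continuous.subtype_mk (by fun_prop) _⟩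
  let H : C(I × R, Circle) := f'.comp hom
  let θ : ℝ := Complex.arg (f' ⟨x₀, hx₀⟩ : ℂ)
  have hH0 : ∀ a, H (0, a) = Circle.exp ((ContinuousMap.const R θ) a) := by
    intro a
    have e : hom (0, a) = ⟨x₀, hx₀⟩ := by
      apply Subtype.ext
      show x₀ + ((0 : I) : ℝ) • ((a : E) - x₀) = x₀
      simp
    show f' (hom (0, a)) = Circle.exp θ
    rw [e]
    exact (Circle.exp_arg _).symm
  let G : C(I × R, ℝ) := Circle.isCoveringMap_exp.liftHomotopy H (ContinuousMap.const R θ) hH0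
  have hG : ∀ z, Circle.exp (G z) = H z := fun z =>
    congrFun (Circle.isCoveringMap_exp.liftHomotopy_lifts H (ContinuousMap.const R θ) hH0) z
  refine ⟨fun x => if hx : x ∈ R then G (1, ⟨x, hx⟩) else 0, ?_, ?_⟩
  · rw [continuousOn_iff_continuous_domRestrict]
    have e : R.domRestrict (fun x => if hx : x ∈ R then G (1, ⟨x, hx⟩) else 0) =
        fun x : R => G (1, x) := by
      funext x
      show (if hx : (x : E) ∈ R then G (1, ⟨x, hx⟩) else 0) = _
      rw [dif_pos x.2]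
    rw [e]
    exact G.continuous.comp (by fun_prop)
  · intro x hx
    simp only [dif_pos hx]
    have h2 := congrArg (fun c : Circle => (c : ℂ)) (hG (1, ⟨x, hx⟩))
    simp only [Circle.coe_exp] at h2
    rw [h2]
    have e : hom (1, ⟨x, hx⟩) = ⟨x, hx⟩ := by
      apply Subtype.ext
      show x₀ + ((1 : I) : ℝ) • (x - x₀) = x
      simp
    show f x = ((f' (hom (1, ⟨x, hx⟩)) : Circle) : ℂ)
    rw [e]
    rfl

theorem const_of_int {E : Type*} [NormedAddCommGroup E] [NormedSpace ℝ E] {R : Set E}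
    (hR : Convex ℝ R) {g : E → ℝ} (hg : ContinuousOn g R)
    (h : ∀ x ∈ R, ∃ k : ℤ, g x = k * Real.pi) {x y : E} (hx : x ∈ R) (hy : y ∈ R) :
    g x = g y := by
  have key : ∀ x ∈ R, ∀ y ∈ R, ¬ g x < g y := by
    intro x hx y hy hlt
    have hpre : IsPreconnected (g '' R) := hR.isPreconnected.image g hg
    obtain ⟨k, hk⟩ := h x hx
    obtain ⟨l, hl⟩ := h y hy
    have hπ := Real.pi_pos
    have hkl : k < l := by
      rw [hk, hl] at hlt
      have := lt_of_mul_lt_mul_right hlt hπ.le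
      exact_mod_cast this
    have hkl' : (k : ℝ) + 1 ≤ l := by exact_mod_cast hkl
    have hsub := hpre.Icc_subset (Set.mem_image_of_mem g hx) (Set.mem_image_of_mem g hy)
    obtain ⟨z, hz, hzv⟩ := hsub (show ((k : ℝ) + 1 / 2) * Real.pi ∈ Set.Icc (g x) (g y) by
      rw [hk, hl]
      constructor <;> nlinarith)
    obtain ⟨m, hm⟩ := h z hz
    rw [hm] at hzv
    have h2 : (m : ℝ) = k + 1 / 2 := mul_right_cancel₀ hπ.ne' hzv
    have h3 : (2 * m : ℝ) = 2 * k + 1 := by linarith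
    have h4 : 2 * m = 2 * k + 1 := by exact_mod_cast h3
    omega
  rcases lt_trichotomy (g x) (g y) with h' | h' | h'
  · exact absurd h' (key x hx y hy)
  · exact h'
  · exact absurd h' (key y hy x hx)

end Run7.h305.PCC1
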