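import Pool.Agent.Run7.h745.PC_Defs

/-!
# Project PC of helper745: piece PC_C4 (no numbers with the square relations)
-/

set_option autoImplicit false

namespace Run7.h305.PCC4

open Pool.Agent.Run7.h745.PC

def p0123 : P4 := ⟨![0, 1, 2, 3], ![0, 1, 2, 3], by decide, by decide⟩
def p0132 : P4 := ⟨![0, 1, 3, 2], ![0, 1, 3, 2], by decide, by decide⟩
def p0213 : P4 := ⟨![0, 2, 1, 3], ![0, 2, 1, 3], by decide, by decide⟩
def p0231 : P4 := ⟨![0, 2, 3, 1], ![0, 3, 1, 2], by decide, by decide⟩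
def p0312 : P4 := ⟨![0, 3, 1, 2], ![0, 2, 3, 1], by decide, by decide⟩
def p0321 : P4 := ⟨![0, 3, 2, 1], ![0, 3, 2, 1], by decide, by decide⟩
def p1203 : P4 := ⟨![1, 2, 0, 3], ![2, 0, 1, 3], by decide, by decide⟩
def p1230 : P4 := ⟨![1, 2, 3, 0], ![3, 0, 1, 2], by decide, by decide⟩
def p1302 : P4 := ⟨![1, 3, 0, 2], ![2, 0, 3, 1], by decide, by decide⟩
def p1320 : P4 := ⟨![1, 3, 2, 0], ![3, 0, 2, 1], by decide, by decide⟩
def p2103 : P4 := ⟨![2, 1, 0, 3], ![2, 1, 0, 3], by decide, by decide⟩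
def p2130 : P4 := ⟨![2, 1, 3, 0], ![3, 1, 0, 2], by decide, by decide⟩
def p2301 : P4 := ⟨![2, 3, 0, 1], ![2, 3, 0, 1], by decide, by decide⟩
def p2310 : P4 := ⟨![2, 3, 1, 0], ![3, 2, 0, 1], by decide, by decide⟩
def p3102 : P4 := ⟨![3, 1, 0, 2], ![2, 1, 3, 0], by decide, by decide⟩
def p3120 : P4 := ⟨![3, 1, 2, 0], ![3, 1, 2, 0], by decide, by decide⟩
def p3201 : P4 := ⟨![3, 2, 0, 1], ![2, 3, 1, 0], by decide, by decide⟩
def p3210 : P4 := ⟨![3, 2, 1, 0], ![3, 2, 1, 0], by decide, by decide⟩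

theorem no_S (S : P4 → ℤ) (h1 : ∀ σ, (Equiv.Perm.sign σ = 1 ↔ Even (S σ)))
    (h2 : ∀ (σ : P4) (a b c d : Fin 4), a ≠ b → c ≠ d → a ≠ c → a ≠ d → b ≠ c → b ≠ d →
        S σ + S (σ * (Equiv.swap a b * Equiv.swap c d)) =
          S (σ * Equiv.swap a b) + S (σ * Equiv.swap c d)) : False := by
  have s0123 : S p0123 % 2 = 0 := Int.even_iff.1 ((h1 p0123).1 (by decide))
  have s0132 : S p0132 % 2 = 1 := by
    rw [← Int.not_even_iff, ← h1 p0132]
    decide
  have s0213 : S p0213 % 2 = 1 := by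
    rw [← Int.not_even_iff, ← h1 p0213]
    decide
  have s0231 : S p0231 % 2 = 0 := Int.even_iff.1 ((h1 p0231).1 (by decide))
  have s0312 : S p0312 % 2 = 0 := Int.even_iff.1 ((h1 p0312).1 (by decide))
  have s0321 : S p0321 % 2 = 1 := by
    rw [← Int.not_even_iff, ← h1 p0321]
    decide
  have s1203 : S p1203 % 2 = 0 := Int.even_iff.1 ((h1 p1203).1 (by decide))
  have s1230 : S p1230 % 2 = 1 := by
    rw [← Int.not_even_iff, ← h1 p1230]
    decide
  have s1302 : S p1302 % 2 = 1 := by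
    rw [← Int.not_even_iff, ← h1 p1302]
    decide
  have s1320 : S p1320 % 2 = 0 := Int.even_iff.1 ((h1 p1320).1 (by decide))
  have s2103 : S p2103 % 2 = 1 := by
    rw [← Int.not_even_iff, ← h1 p2103]
    decide
  have s2130 : S p2130 % 2 = 0 := Int.even_iff.1 ((h1 p2130).1 (by decide))
  have s2301 : S p2301 % 2 = 0 := Int.even_iff.1 ((h1 p2301).1 (by decide))
  have s2310 : S p2310 % 2 = 1 := by
    rw [← Int.not_even_iff, ← h1 p2310]
    decide
  have s3102 : S p3102 % 2 = 0 := Int.even_iff.1 ((h1 p3102).1 (by decide))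
  have s3120 : S p3120 % 2 = 1 := by
    rw [← Int.not_even_iff, ← h1 p3120]
    decide
  have s3201 : S p3201 % 2 = 1 := by
    rw [← Int.not_even_iff, ← h1 p3201]
    decide
  have s3210 : S p3210 % 2 = 0 := Int.even_iff.1 ((h1 p3210).1 (by decide))
  have q0 := h2 p0132 0 3 1 2 (by decide) (by decide) (by decide) (by decide) (by decide) (by decide)
  rw [show p0132 * (Equiv.swap 0 3 * Equiv.swap 1 2) = p2310 by decide,
    show p0132 * Equiv.swap 0 3 = p2130 by decide, show p0132 * Equiv.swap 1 2 = p0312 by decide] at q0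
  have q1 := h2 p0123 0 2 1 3 (by decide) (by decide) (by decide) (by decide) (by decide) (by decide)
  rw [show p0123 * (Equiv.swap 0 2 * Equiv.swap 1 3) = p2301 by decide,
    show p0123 * Equiv.swap 0 2 = p2103 by decide, show p0123 * Equiv.swap 1 3 = p0321 by decide] at q1
  have q2 := h2 p0231 0 3 1 2 (by decide) (by decide) (by decide) (by decide) (by decide) (by decide)
  rw [show p0231 * (Equiv.swap 0 3 * Equiv.swap 1 2) = p1320 by decide,
    show p0231 * Equiv.swap 0 3 = p1230 by decide, show p0231 * Equiv.swap 1 2 = p0321 by decide] at q2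
  have q3 := h2 p0123 0 3 1 2 (by decide) (by decide) (by decide) (by decide) (by decide) (by decide)
  rw [show p0123 * (Equiv.swap 0 3 * Equiv.swap 1 2) = p3210 by decide,
    show p0123 * Equiv.swap 0 3 = p3120 by decide, show p0123 * Equiv.swap 1 2 = p0213 by decide] at q3
  have q4 := h2 p1302 0 1 2 3 (by decide) (by decide) (by decide) (by decide) (by decide) (by decide)
  rw [show p1302 * (Equiv.swap 0 1 * Equiv.swap 2 3) = p3120 by decide,
    show p1302 * Equiv.swap 0 1 = p3102 by decide, show p1302 * Equiv.swap 2 3 = p1320 by decide] at q4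
  have q5 := h2 p0213 0 2 1 3 (by decide) (by decide) (by decide) (by decide) (by decide) (by decide)
  rw [show p0213 * (Equiv.swap 0 2 * Equiv.swap 1 3) = p1302 by decide,
    show p0213 * Equiv.swap 0 2 = p1203 by decide, show p0213 * Equiv.swap 1 3 = p0312 by decide] at q5
  have q6 := h2 p2301 0 1 2 3 (by decide) (by decide) (by decide) (by decide) (by decide) (by decide)
  rw [show p2301 * (Equiv.swap 0 1 * Equiv.swap 2 3) = p3210 by decide,
    show p2301 * Equiv.swap 0 1 = p3201 by decide, show p2301 * Equiv.swap 2 3 = p2310 by decide] at q6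
  have q7 := h2 p1203 0 1 2 3 (by decide) (by decide) (by decide) (by decide) (by decide) (by decide)
  rw [show p1203 * (Equiv.swap 0 1 * Equiv.swap 2 3) = p2130 by decide,
    show p1203 * Equiv.swap 0 1 = p2103 by decide, show p1203 * Equiv.swap 2 3 = p1230 by decide] at q7
  have q8 := h2 p0132 0 2 1 3 (by decide) (by decide) (by decide) (by decide) (by decide) (by decide)
  rw [show p0132 * (Equiv.swap 0 2 * Equiv.swap 1 3) = p3201 by decide,
    show p0132 * Equiv.swap 0 2 = p3102 by decide, show p0132 * Equiv.swap 1 3 = p0231 by decide] at q8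
  omega

end Run7.h305.PCC4
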